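import Pool.Agent.T2h98.BM.Final

/-!
# Outer-minimizing versus no-horizon Bartnik mass: round spheres of the Schwarzschild slice

`Σ = {|x| = ρ}`, `ρ > m / 2`, is a centred sphere outside the horizon of the time-symmetric slice
`((1 + m / (2|x|))⁴ δ, 0)` of the Schwarzschild metric of mass `m > 0`, on `ℝ³ ∖ {0}`, with the end
at infinity chosen. It is outer-minimizing.

For every `ε > 0` there is an extension across `Σ`, that is, smooth complete initial data `(G, h)`
on `ℝ³ ∖ {0}` with `μ ≥ |J|`, equal to the Schwarzschild data for `0 < |x| ≤ ρ`, asymptotically
flat at both ends, with ADM mass in `(0, ε)` at the chosen end, and without any apparent horizon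
(`H_S = tr_S h`) contained in `{|x| ≥ ρ}`; here the surfaces `S` are arbitrary smooth closed
surfaces, possibly disconnected, bounding a region which contains the end at the origin. Hence
`m_B(Σ) ≤ 0`, whereas `m_outer(Σ) = m` is listed as known in the problem file.

The theorem is stated for the radial extensions (`g = φ(|x|)⁴ δ`, and `x` is an eigenvector of `h`):
over these the infimum of the total mass is exactly `m` if `Σ` is required to be outer-minimizing
and exactly `0` if the extension is required to contain no apparent horizon.

The extensions: outside `Σ` the area radius increases, the second fundamental form is turned on as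
`h = - k g` with `k > 0` large, so that all centred spheres satisfy `H > tr h = - 2 k` although the
area radius then decreases to a value of order `ε`, after which the area radius increases again,
`h` is turned off, and the data are continued as a time-symmetric Schwarzschild slice of small
mass. At the point of a closed surface farthest from the centre `H_S` is at least the mean
curvature of the centred sphere, which exceeds `tr_S h = - 2 k`.
-/

set_option autoImplicit false

namespace Pool.Agent.Results.MP_c642b3_mp.OuterVsNoHorizon

open Pool.Agent.T2h98.BM

theorem result (m ρ : ℝ) (hm : 0 < m) (hρ : m / 2 < ρ) :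
    -- the time-symmetric slice of the Schwarzschild metric: complete data with `μ ≥ |J|`, two
    -- asymptotically flat ends of mass `m`; the sphere of radius `ρ` is outer-minimizing
    (InitialData (schwarzschild m) 0 ∧
      FlatEndOn (schwarzschild m) 0 {x | ρ < ‖x‖} m ∧
      FlatEndOn (schwarzschild m) 0 {x | 0 < ‖x‖ ∧ ‖x‖ < ρ} m ∧
      IsInside (Metric.ball 0 ρ) ∧
      IsOuterMinimizing (schwarzschild m) (Metric.ball 0 ρ)) ∧
    -- the two masses, over the radial extensions
    outerMass m ρ = m ∧ noHorizonMass m ρ = 0 :=
  ⟨schwarzschild_facts hm hρ, outerMass_eq hm hρ, noHorizonMass_eq hm hρ⟩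

end Pool.Agent.Results.MP_c642b3_mp.OuterVsNoHorizon
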